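import Mathlib

set_option autoImplicit false

/-! Matchings of a convex point set with the same perimeter edges are joined by a one-legged
caterpillar. -/

namespace Pool.Agent.K1H94.CM

variable {N : ℕ}

/-- the label of `c` lies strictly between the labels of `a` and `b` -/
def B (a b c : ZMod N) : Prop :=
  (a.val < c.val ∧ c.val < b.val) ∨ (b.val < c.val ∧ c.val < a.val)

/-- the segments `a b` and `c d` cross -/
def Cross (a b c d : ZMod N) : Prop :=
  c ≠ a ∧ c ≠ b ∧ d ≠ a ∧ d ≠ b ∧ (B a b c ↔ ¬ B a b d)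

/-- plane drawing -/
def Plane (D : SimpleGraph (ZMod N)) : Prop :=
  ∀ a b c d, D.Adj a b → D.Adj c d → ¬ Cross a b c d

/-- disjoint compatible drawings -/
def DisjCompat (D M : SimpleGraph (ZMod N)) : Prop :=
  (∀ a b, D.Adj a b → ¬ M.Adj a b) ∧ Plane (D ⊔ M)

/-- plane perfect matching -/
def PlanePM (M : SimpleGraph (ZMod N)) : Prop := Plane M ∧ ∀ v, ∃! w, M.Adj v w

/-- one-legged caterpillar with vertex set all points -/
def OneLegged (D : SimpleGraph (ZMod N)) : Prop :=
  ∃ (s : List (ZMod N)) (h : ZMod N → ZMod N), s ≠ [] ∧ s.Nodup ∧ (∀ v, v ∉ s → h v ∈ s) ∧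
    (∀ v w, v ∉ s → w ∉ s → h v = h w → v = w) ∧
    ∀ x y, D.Adj x y ↔ [x, y] <:+: s ∨ [y, x] <:+: s ∨ (x ∉ s ∧ y = h x) ∨ (y ∉ s ∧ x = h y)

lemma val_succ [NeZero N] (hN : 2 ≤ N) (x : ZMod N) :
    (x + 1).val = if x.val + 1 = N then 0 else x.val + 1 := by
  haveI : Fact (1 < N) := ⟨by omega⟩
  rw [ZMod.val_add, ZMod.val_one]
  have hx := ZMod.val_lt x
  split_ifs with h
  · rw [h, Nat.mod_self]
  · exact Nat.mod_eq_of_lt (by omega)

lemma ne_val [NeZero N] {a b : ZMod N} (h : a ≠ b) : a.val ≠ b.val :=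
  fun h' => h (ZMod.val_injective N h')

lemma cross_symm [NeZero N] {a b c d : ZMod N} (h : Cross a b c d) (hab : a ≠ b) (hcd : c ≠ d) :
    Cross c d a b := by
  obtain ⟨h1, h2, h3, h4, h5⟩ := h
  refine ⟨h1.symm, h3.symm, h2.symm, h4.symm, ?_⟩
  have g1 := ne_val h1
  have g2 := ne_val h2
  have g3 := ne_val h3
  have g4 := ne_val h4
  have g5 := ne_val hab
  have g6 := ne_val hcd
  unfold B at *
  omega

lemma cross_swap {a b c d : ZMod N} (h : Cross a b c d) : Cross b a c d := by
  obtain ⟨h1, h2, h3, h4, h5⟩ := h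
  refine ⟨h2, h1, h4, h3, ?_⟩
  unfold B at *
  omega

lemma ncr [NeZero N] (hN : 4 ≤ N) {x y p q : ZMod N}
    (h : y = x + 1 ∨ (y = x + 1 + 1 ∧ (p = x + 1 → q = x + 1 + 1 ∨ q = x) ∧
      (q = x + 1 → p = x + 1 + 1 ∨ p = x))) : ¬ Cross x y p q := by
  rintro ⟨h1, h2, h3, h4, h5⟩
  have g1 := ne_val h1
  have g2 := ne_val h2
  have g3 := ne_val h3
  have g4 := ne_val h4
  have l1 := ZMod.val_lt x
  have l2 := ZMod.val_lt p
  have l3 := ZMod.val_lt q
  have s1 := val_succ (by omega) x
  have s2 := val_succ (by omega) (x + 1)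
  rcases h with rfl | ⟨rfl, h6, h7⟩
  · unfold B at h5
    split_ifs at s1 <;> omega
  · have hp : p ≠ x + 1 := by
      intro e
      rcases h6 e with e' | e'
      · exact h4 e'
      · exact h3 e'
    have hq : q ≠ x + 1 := by
      intro e
      rcases h7 e with e' | e'
      · exact h2 e'
      · exact h1 e'
    have g5 := ne_val hp
    have g6 := ne_val hq
    unfold B at h5
    split_ifs at s1 s2 <;> omega

section spine

variable [NeZero N] (c : ZMod N) (A : Set (ZMod N))

/-- the `j`-th point after the cut -/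
def ev (j : ℕ) : ZMod N := c + 1 + (j : ZMod N)

lemma ev_succ (j : ℕ) : ev c (j + 1) = ev c j + 1 := by
  unfold ev
  push_cast
  ring

open Classical in
/-- part of the spine -/
noncomputable def sp (p m : ℕ) : List (ZMod N) :=
  ((List.range' p m).filter (fun j => decide (ev c j ∉ A))).map (ev c)

/-- relation of consecutive points of the spine -/
def R (x y : ZMod N) : Prop := (y = x + 1 ∧ x ≠ c) ∨ (y = x + 1 + 1 ∧ x + 1 ∈ A)

lemma ev_ne {p : ℕ} (h : p + 1 < N) : ev c p ≠ c := by
  intro e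
  unfold ev at e
  have h1 : ((p + 1 : ℕ) : ZMod N) = 0 := by
    push_cast
    have : c + ((p : ZMod N) + 1) = c + 0 := by
      rw [add_zero]
      calc c + ((p : ZMod N) + 1) = c + 1 + p := by ring
        _ = c := e
    exact add_left_cancel this
  rw [ZMod.natCast_eq_zero_iff] at h1
  exact absurd (Nat.le_of_dvd (by omega) h1) (by omega)

lemma chain_sp (hA : ∀ a ∈ A, a + 1 ∉ A) : ∀ (m p : ℕ), p + m ≤ N →
    (sp c A p m).IsChain (R c A) ∧
      ∀ x ∈ (sp c A p m).head?, (x = ev c p) ∨ (x = ev c (p + 1) ∧ ev c p ∈ A) := by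
  intro m
  induction m with
  | zero =>
    intro p _
    unfold sp
    simp
  | succ m ih =>
    intro p hp
    obtain ⟨h1, h2⟩ := ih (p + 1) (by omega)
    by_cases hpA : ev c p ∈ A
    · have e : sp c A p (m + 1) = sp c A (p + 1) m := by
        unfold sp
        rw [List.range'_succ, List.filter_cons_of_neg (by simpa using hpA)]
      rw [e]
      refine ⟨h1, fun x hx => ?_⟩
      rcases h2 x hx with h3 | ⟨h3, h4⟩
      · exact Or.inr ⟨h3, hpA⟩
      · exfalso
        rw [ev_succ] at h4
        exact hA _ hpA h4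
    · have e : sp c A p (m + 1) = ev c p :: sp c A (p + 1) m := by
        unfold sp
        rw [List.range'_succ, List.filter_cons_of_pos (by simpa using hpA), List.map_cons]
      rw [e]
      refine ⟨?_, fun x hx => ?_⟩
      · rw [List.isChain_cons]
        refine ⟨fun y hy => ?_, h1⟩
        have hm : m ≠ 0 := by
          rintro rfl
          unfold sp at hy
          simp at hy
        rcases h2 y hy with h3 | ⟨h3, h4⟩
        · left
          exact ⟨by rw [h3, ev_succ], ev_ne c (by omega)⟩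
        · right
          exact ⟨by rw [h3, ev_succ, ev_succ], by rw [← ev_succ]; exact h4⟩
      · left
        simpa using hx.symm

lemma mem_sp {v : ZMod N} : v ∈ sp c A 0 N ↔ v ∉ A := by
  unfold sp
  rw [List.mem_map]
  constructor
  · rintro ⟨j, hj, rfl⟩
    rw [List.mem_filter] at hj
    simpa using hj.2
  · intro hv
    have he : ev c (v - (c + 1)).val = v := by
      unfold ev
      rw [ZMod.natCast_val, ZMod.cast_id]
      ring
    refine ⟨(v - (c + 1)).val, ?_, he⟩
    rw [List.mem_filter, List.mem_range'_1]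
    exact ⟨⟨Nat.zero_le _, by have := ZMod.val_lt (v - (c + 1)); omega⟩, by rw [he]; simpa using hv⟩

lemma nodup_sp : (sp c A 0 N).Nodup := by
  unfold sp
  refine List.Nodup.map_on ?_ ((List.nodup_range' (step := 1)).filter _)
  intro x hx y hy h
  rw [List.mem_filter, List.mem_range'_1] at hx hy
  unfold ev at h
  have h1 : (x : ZMod N) = (y : ZMod N) := add_left_cancel h
  rw [ZMod.natCast_eq_natCast_iff'] at h1
  rw [Nat.mod_eq_of_lt (by omega), Nat.mod_eq_of_lt (by omega)] at h1
  exact h1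

end spine

end Pool.Agent.K1H94.CM
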