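import Pool.Agent.K1H94.CM.Basic

set_option autoImplicit false

/-! The walk around the polygon. -/

namespace Pool.Agent.K1H94.CM

variable {N : ℕ} [NeZero N]

lemma two_ne (hN : 4 ≤ N) : (2 : ZMod N) ≠ 0 := by
  intro h
  have h1 : ((2 : ℕ) : ZMod N) = 0 := by exact_mod_cast h
  rw [ZMod.natCast_eq_zero_iff] at h1
  exact absurd (Nat.le_of_dvd (by norm_num) h1) (by omega)

lemma one_ne (hN : 4 ≤ N) : (1 : ZMod N) ≠ 0 := by
  intro h
  apply two_ne hN
  rw [← one_add_one_eq_two, h, add_zero]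

/-- the caterpillar -/
def cat (hN : 4 ≤ N) (c : ZMod N) (A : Set (ZMod N)) : SimpleGraph (ZMod N) where
  Adj x y := [x, y] <:+: sp c A 0 N ∨ [y, x] <:+: sp c A 0 N ∨ (x ∉ sp c A 0 N ∧ y = x - 1) ∨
    (y ∉ sp c A 0 N ∧ x = y - 1)
  symm := ⟨by
    rintro x y (h | h | h | h)
    · exact Or.inr (Or.inl h)
    · exact Or.inl h
    · exact Or.inr (Or.inr (Or.inr h))
    · exact Or.inr (Or.inr (Or.inl h))⟩
  loopless := ⟨by
    have key : ∀ x, ¬ [x, x] <:+: sp c A 0 N := by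
      intro x h
      have := (nodup_sp c A).sublist h.sublist
      simp at this
    have key2 : ∀ x : ZMod N, x ≠ x - 1 := by
      intro x h
      apply one_ne hN
      have : x - (x - 1) = 0 := sub_eq_zero.2 h
      rwa [sub_sub_cancel] at this
    rintro x (h | h | ⟨-, h⟩ | ⟨-, h⟩)
    · exact key x h
    · exact key x h
    · exact key2 x h
    · exact key2 x h⟩

/-- oriented edges of the caterpillar -/
def DE (c : ZMod N) (A : Set (ZMod N)) (x y : ZMod N) : Prop :=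
  (y = x + 1 ∧ x ≠ c ∧ x ∉ A) ∨ (y = x + 1 ∧ y ∈ A) ∨
    (y = x + 1 + 1 ∧ x + 1 ∈ A ∧ x ∉ A ∧ y ∉ A)

lemma cat_adj (hN : 4 ≤ N) (c : ZMod N) (A : Set (ZMod N)) (hA : ∀ a ∈ A, a + 1 ∉ A)
    {x y : ZMod N} (h : (cat hN c A).Adj x y) : DE c A x y ∨ DE c A y x := by
  have key : ∀ x y : ZMod N, [x, y] <:+: sp c A 0 N → DE c A x y := by
    intro x y h
    have h1 := (chain_sp c A hA N 0 (by omega)).1
    obtain ⟨l1, l2, hl⟩ := id h
    rw [← hl] at h1
    replace h1 := (List.isChain_append.1 (List.isChain_append.1 h1).1).2.1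
    rw [List.isChain_pair] at h1
    have hx : x ∉ A := (mem_sp c A).1 (h.subset (by simp))
    have hy : y ∉ A := (mem_sp c A).1 (h.subset (by simp))
    rcases h1 with ⟨h2, h3⟩ | ⟨h2, h3⟩
    · exact Or.inl ⟨h2, h3, hx⟩
    · exact Or.inr (Or.inr ⟨h2, h3, hx, hy⟩)
  rcases h with h | h | ⟨h, h'⟩ | ⟨h, h'⟩
  · exact Or.inl (key _ _ h)
  · exact Or.inr (key _ _ h)
  · right
    rw [mem_sp, not_not] at h
    exact Or.inr (Or.inl ⟨by rw [h']; ring, h⟩)
  · left
    rw [mem_sp, not_not] at h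
    exact Or.inr (Or.inl ⟨by rw [h']; ring, h⟩)

lemma cat_oneLegged (hN : 4 ≤ N) (c : ZMod N) (A : Set (ZMod N)) (hA : ∀ a ∈ A, a + 1 ∉ A) :
    OneLegged (cat hN c A) := by
  refine ⟨sp c A 0 N, fun x => x - 1, ?_, nodup_sp c A, ?_, ?_, fun x y => Iff.rfl⟩
  · intro h
    by_cases hc : c ∈ A
    · have := (mem_sp c A).2 (hA c hc)
      rw [h] at this
      simp at this
    · have := (mem_sp c A).2 hc
      rw [h] at this
      simp at this
  · intro v hv
    rw [mem_sp, not_not] at hv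
    rw [mem_sp]
    intro h
    have := hA _ h
    rw [sub_add_cancel] at this
    exact this hv
  · intro v w _ _ h
    exact sub_left_injective h

lemma mat_unique {M : SimpleGraph (ZMod N)} (hM : PlanePM M) {a b b' : ZMod N} (h : M.Adj a b)
    (h' : M.Adj a b') : b = b' := (hM.2 a).unique h h'

lemma cat_compat (hN : 4 ≤ N) (c : ZMod N) (A : Set (ZMod N)) {M : SimpleGraph (ZMod N)}
    (hM : PlanePM M) (h1 : ∀ a ∈ A, M.Adj a (a + 1)) (h2 : ∀ a, M.Adj a (a + 1) → a ∈ A ∨ a = c) :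
    (∀ a ∈ A, a + 1 ∉ A) ∧ DisjCompat (cat hN c A) M := by
  have hne1 : ∀ x : ZMod N, x ≠ x + 1 := by
    intro x h
    apply one_ne hN
    exact (left_eq_add.1 h)
  have hne2 : ∀ x : ZMod N, x ≠ x + 1 + 1 := by
    intro x h
    apply two_ne hN
    rw [add_assoc, one_add_one_eq_two] at h
    exact (left_eq_add.1 h)
  have hA : ∀ a ∈ A, a + 1 ∉ A := by
    intro a ha ha'
    exact hne2 a (mat_unique hM (h1 a ha).symm (h1 _ ha'))
  have hdis : ∀ x y, DE c A x y → ¬ M.Adj x y := by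
    rintro x y (⟨rfl, h3, h4⟩ | ⟨rfl, h3⟩ | ⟨rfl, h3, -, -⟩) h
    · rcases h2 x h with h5 | h5
      · exact h4 h5
      · exact h3 h5
    · exact hne2 x (mat_unique hM h.symm (h1 _ h3))
    · exact hne1 x (mat_unique hM h.symm (h1 _ h3).symm)
  have hDD : ∀ x y p q, DE c A x y → (cat hN c A).Adj p q → ¬ Cross x y p q := by
    intro x y p q hxy hpq
    have key : ∀ x p q, x + 1 ∈ A → x ∉ A → x + 1 + 1 ∉ A → (cat hN c A).Adj p q → p = x + 1 →
        q = x := by
      rintro x p q h3 h4 h5 h6 rfl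
      rcases cat_adj hN c A hA h6 with (⟨-, -, h7⟩ | ⟨h7, h8⟩ | ⟨-, -, h7, -⟩) |
        (⟨h7, -, -⟩ | ⟨h7, -⟩ | ⟨h7, -, -, h8⟩)
      · exact absurd h3 h7
      · rw [h7] at h8
        exact absurd h8 h5
      · exact absurd h3 h7
      · exact (add_right_cancel h7).symm
      · exact (add_right_cancel h7).symm
      · exact absurd h3 h8
    rcases hxy with ⟨h3, -, -⟩ | ⟨h3, -⟩ | ⟨h3, h4, h5, h6⟩
    · exact ncr hN (Or.inl h3)
    · exact ncr hN (Or.inl h3)
    · refine ncr hN (Or.inr ⟨h3, fun e => Or.inr ?_, fun e => Or.inr ?_⟩)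
      · exact key x p q h4 h5 (h3 ▸ h6) hpq e
      · exact key x q p h4 h5 (h3 ▸ h6) hpq.symm e
  have hDM : ∀ x y p q, DE c A x y → M.Adj p q → ¬ Cross x y p q := by
    intro x y p q hxy hpq
    rcases hxy with ⟨h3, -, -⟩ | ⟨h3, -⟩ | ⟨h3, h4, h5, h6⟩
    · exact ncr hN (Or.inl h3)
    · exact ncr hN (Or.inl h3)
    · refine ncr hN (Or.inr ⟨h3, fun e => Or.inl ?_, fun e => Or.inl ?_⟩)
      · subst e
        exact mat_unique hM hpq (h1 _ h4)
      · subst e
        exact mat_unique hM hpq.symm (h1 _ h4)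
  refine ⟨hA, ⟨fun a b h h' => ?_, ?_⟩⟩
  · rcases cat_adj hN c A hA h with h3 | h3
    · exact hdis _ _ h3 h'
    · exact hdis _ _ h3 h'.symm
  · intro a b p q hab hpq hcr
    rw [SimpleGraph.sup_adj] at hab hpq
    rcases hab with hab | hab
    · rcases cat_adj hN c A hA hab with h3 | h3
      · rcases hpq with hpq | hpq
        · exact hDD _ _ _ _ h3 hpq hcr
        · exact hDM _ _ _ _ h3 hpq hcr
      · rcases hpq with hpq | hpq
        · exact hDD _ _ _ _ h3 hpq (cross_swap hcr)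
        · exact hDM _ _ _ _ h3 hpq (cross_swap hcr)
    · rcases hpq with hpq | hpq
      · have hcr' := cross_symm hcr hab.ne hpq.ne
        rcases cat_adj hN c A hA hpq with h3 | h3
        · exact hDM _ _ _ _ h3 hab hcr'
        · exact hDM _ _ _ _ h3 hab (cross_swap hcr')
      · exact hM.1 _ _ _ _ hab hpq hcr

/-- plane matchings with the same perimeter edges up to one are joined by a one-legged
caterpillar -/
theorem walk (hN : 4 ≤ N) {M M' : SimpleGraph (ZMod N)} (hM : PlanePM M) (hM' : PlanePM M')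
    (c : ZMod N) (h : ∀ a, a ≠ c → (M.Adj a (a + 1) ↔ M'.Adj a (a + 1))) :
    ∃ D, OneLegged D ∧ DisjCompat D M ∧ DisjCompat D M' := by
  set A : Set (ZMod N) := {a | M.Adj a (a + 1) ∧ M'.Adj a (a + 1)} with hA
  have h1 := cat_compat hN c A hM (fun a ha => ha.1) (fun a ha => by
    by_cases hc : a = c
    · exact Or.inr hc
    · exact Or.inl ⟨ha, (h a hc).1 ha⟩)
  have h2 := cat_compat hN c A hM' (fun a ha => ha.2) (fun a ha => by
    by_cases hc : a = c
    · exact Or.inr hc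
    · exact Or.inl ⟨(h a hc).2 ha, ha⟩)
  exact ⟨cat hN c A, cat_oneLegged hN c A h1.1, h1.2, h2.2⟩

end Pool.Agent.K1H94.CM
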